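import Pool.Agent.J4H95.TS.Main

/-!
# Vanishing path density in limit profiles of trees

For every `k ≥ 4`: every limit `k`-profile of trees whose path coordinate is `0` has star
coordinate `1`.
-/

namespace Pool.Agent.Results.MP_b90d6a_co.StarPath

open SimpleGraph Filter Topology

open Classical in
/-- `copies S T` is `c(S,T)`: the number of vertex sets `U` of `T` with `T[U] ≅ S`. -/
noncomputable def copies {k m : ℕ} (S : SimpleGraph (Fin k)) (T : SimpleGraph (Fin m)) : ℕ :=
  (Finset.univ.filter (fun U : Finset (Fin m) =>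
    Nonempty (S ≃g T.induce (U : Set (Fin m))))).card

open Classical in
/-- `total k T` is `Z_k(T)`: the number of `k`-element vertex sets `U` of `T` for which `T[U]` is
a tree (each such `U` is counted by `c(S,T)` for exactly one isomorphism type `S` of `k`-vertex
trees, so this is the sum of all `c(S,T)`). -/
noncomputable def total (k : ℕ) {m : ℕ} (T : SimpleGraph (Fin m)) : ℕ :=
  (Finset.univ.filter (fun U : Finset (Fin m) =>
    U.card = k ∧ (T.induce (U : Set (Fin m))).IsTree)).card

/-- The limit set of `k`-profiles of trees: all `p`, indexed by the trees `S` on `Fin k`, such that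
for some sequence of finite trees `T n` with numbers of vertices tending to infinity
`c(S, T n) / Z_k(T n) → p S` for every `S`. -/
def limitSet (k : ℕ) : Set ({S : SimpleGraph (Fin k) // S.IsTree} → ℝ) :=
  {p | ∃ (m : ℕ → ℕ) (T : ∀ n, SimpleGraph (Fin (m n))),
    (∀ n, (T n).IsTree) ∧ Tendsto m atTop atTop ∧
    ∀ S, Tendsto (fun n => (copies S.1 (T n) : ℝ) / (total k (T n) : ℝ)) atTop (𝓝 (p S))}

/-- The path on `k ≥ 1` vertices is a tree. -/
theorem pathTree {k : ℕ} (hk : 4 ≤ k) : (pathGraph k).IsTree := by
  obtain ⟨e, rfl⟩ : ∃ e, k = e + 1 := ⟨k - 1, by omega⟩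
  exact J4H95.TS.isTree_pathGraph e

section

open J4H95.TS

variable {m : ℕ} (T : SimpleGraph (Fin m)) {e : ℕ}

open Classical in
lemma copies_star (c : Fin (e + 4)) : copies (starGraph c) T = (starSets T c).card := by
  unfold copies starSets
  congr!

open Classical in
lemma copies_path : copies (pathGraph (e + 4)) T = (pathSets T (e + 4)).card := by
  unfold copies pathSets
  congr!

open Classical in
lemma copies_le_total {S : SimpleGraph (Fin (e + 4))} (hS : S.IsTree) :
    copies S T ≤ total (e + 4) T := by
  unfold copies total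
  refine Finset.card_le_card ?_
  intro U hU
  simp only [Finset.mem_filter, Finset.mem_univ, true_and] at hU ⊢
  refine ⟨card_of_iso T hU, ?_⟩
  obtain ⟨f⟩ := hU
  exact f.isTree_iff.1 hS

open Classical in
lemma total_le (c : Fin (e + 4)) :
    total (e + 4) T ≤ (starSets T c).card + (nonStar T c).card := by
  refine le_trans (Finset.card_le_card ?_) (Finset.card_union_le _ _)
  intro U hU
  simp only [Finset.mem_filter, Finset.mem_univ, true_and] at hU
  rw [Finset.mem_union]
  by_cases h : Nonempty (starGraph c ≃g T.induce (U : Set (Fin m)))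
  · left
    simp only [starSets, Finset.mem_filter, Finset.mem_univ, true_and]
    exact h
  · right
    simp only [nonStar, Finset.mem_filter, Finset.mem_univ, true_and]
    exact ⟨hU.1, hU.2.connected, h⟩

end

open J4H95.TS in
/-- **Main theorem.**  For every `k ≥ 4` and every limit `k`-profile `p` of trees: if the path
coordinate of `p` is `0`, then the star coordinate of `p` is `1`. -/
theorem result (k : ℕ) (hk : 4 ≤ k) (p : {S : SimpleGraph (Fin k) // S.IsTree} → ℝ)
    (hp : p ∈ limitSet k) (h0 : p ⟨pathGraph k, pathTree hk⟩ = 0) (c : Fin k) :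
    p ⟨starGraph c, isTree_starGraph c⟩ = 1 := by
  classical
  obtain ⟨e, rfl⟩ : ∃ e, k = e + 4 := ⟨k - 4, by omega⟩
  obtain ⟨m, T, hT, hm, hlim⟩ := hp
  have hpath := hlim ⟨pathGraph (e + 4), pathTree hk⟩
  have hstar := hlim ⟨starGraph c, isTree_starGraph c⟩
  rw [h0] at hpath
  simp only at hpath hstar
  set σ := p ⟨starGraph c, isTree_starGraph c⟩ with hσ
  -- abbreviations
  set S : ℕ → ℝ := fun n => (copies (starGraph c) (T n) : ℝ) with hSdef
  set P : ℕ → ℝ := fun n => (copies (pathGraph (e + 4)) (T n) : ℝ) with hPdef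
  set Z : ℕ → ℝ := fun n => (total (e + 4) (T n) : ℝ) with hZdef
  have hle1 : σ ≤ 1 := by
    refine le_of_tendsto' hstar fun n => ?_
    refine div_le_one_of_le₀ ?_ (Nat.cast_nonneg _)
    exact_mod_cast copies_le_total (T n) (isTree_starGraph c)
  -- eventually `Z > 0`
  have hZpos : ∀ᶠ n in atTop, 0 < Z n := by
    filter_upwards [hm.eventually_gt_atTop (((e + 3) * (c2 e + 1)) ^ (2 ^ (e + 2)))] with n hn
    have hcard : ((e + 3) * (c2 e + 1)) ^ (2 ^ (e + 2)) < Fintype.card (Fin (m n)) := by
      rw [Fintype.card_fin]; exact hn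
    rcases star_or_path (T n) (hT n) c hcard with h | h
    · have h1 := copies_le_total (T n) (isTree_starGraph c)
      rw [copies_star] at h1
      have : 0 < total (e + 4) (T n) := lt_of_lt_of_le h h1
      simp only [hZdef]
      exact_mod_cast this
    · have h1 := copies_le_total (T n) (pathTree hk)
      rw [copies_path] at h1
      have : 0 < total (e + 4) (T n) := lt_of_lt_of_le h h1
      simp only [hZdef]
      exact_mod_cast this
  -- the main inequality for each `K`
  have hmain : ∀ K : ℕ, 1 ≤ K → (K : ℝ) * (1 - σ) ≤ (cA e : ℝ) := by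
    intro K hK
    have hev : ∀ᶠ n in atTop, (K : ℝ) * (1 - S n / Z n) ≤
        (cA e : ℝ) + (cB e K * (e + 4) : ℕ) * (P n / Z n) := by
      filter_upwards [hZpos,
        hm.eventually_gt_atTop (((e + 3) * (c2 e + cB e K)) ^ (2 ^ (e + 2)))] with n hZn hn
      have hcard : ((e + 3) * (c2 e + cB e K)) ^ (2 ^ (e + 2)) < Fintype.card (Fin (m n)) := by
        rw [Fintype.card_fin]; exact hn
      have h1 := main_ineq (T n) (hT n) c K hK hcard
      have h2 := total_le (T n) c
      rw [← copies_star, ← copies_path] at h1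
      rw [← copies_star] at h2
      have h1' : (K : ℝ) * ((nonStar (T n) c).card : ℝ) ≤ (cA e : ℝ) * S n
          + ((cB e K * (e + 4) : ℕ) : ℝ) * P n := by
        simp only [hSdef, hPdef]
        exact_mod_cast h1
      have h2' : Z n ≤ S n + ((nonStar (T n) c).card : ℝ) := by
        simp only [hSdef, hZdef]
        exact_mod_cast h2
      have h3 : S n ≤ Z n := by
        simp only [hSdef, hZdef]
        exact_mod_cast copies_le_total (T n) (isTree_starGraph c)
      have hK0 : (0 : ℝ) ≤ K := Nat.cast_nonneg _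
      have h4 : (K : ℝ) * (Z n - S n) ≤ (cA e : ℝ) * Z n
          + ((cB e K * (e + 4) : ℕ) : ℝ) * P n := by
        calc (K : ℝ) * (Z n - S n) ≤ (K : ℝ) * ((nonStar (T n) c).card : ℝ) :=
              mul_le_mul_of_nonneg_left (by linarith) hK0
          _ ≤ _ := h1'
          _ ≤ _ := by
              have : (cA e : ℝ) * S n ≤ (cA e : ℝ) * Z n :=
                mul_le_mul_of_nonneg_left h3 (Nat.cast_nonneg _)
              linarith
      have h5 : (K : ℝ) * (1 - S n / Z n) = (K : ℝ) * (Z n - S n) / Z n := by
        field_simp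
      have h6 : (cA e : ℝ) + (cB e K * (e + 4) : ℕ) * (P n / Z n) =
          ((cA e : ℝ) * Z n + ((cB e K * (e + 4) : ℕ) : ℝ) * P n) / Z n := by
        field_simp
      rw [h5, h6]
      exact div_le_div_of_nonneg_right h4 hZn.le
    have hl : Tendsto (fun n => (K : ℝ) * (1 - S n / Z n)) atTop (𝓝 ((K : ℝ) * (1 - σ))) :=
      (tendsto_const_nhds.sub hstar).const_mul _
    have hr : Tendsto (fun n => (cA e : ℝ) + (cB e K * (e + 4) : ℕ) * (P n / Z n)) atTop
        (𝓝 ((cA e : ℝ) + (cB e K * (e + 4) : ℕ) * 0)) :=
      tendsto_const_nhds.add (hpath.const_mul _)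
    have := le_of_tendsto_of_tendsto hl hr hev
    simpa using this
  by_contra hne
  have hlt : σ < 1 := lt_of_le_of_ne hle1 hne
  obtain ⟨K, hK⟩ := exists_nat_gt ((cA e : ℝ) / (1 - σ))
  have h1 : 0 < 1 - σ := by linarith
  rw [div_lt_iff₀ h1] at hK
  have h2 : 1 ≤ K := by
    rcases Nat.eq_zero_or_pos K with h | h
    · rw [h] at hK
      have : (0 : ℝ) ≤ cA e := Nat.cast_nonneg _
      simp only [Nat.cast_zero, zero_mul] at hK
      linarith
    · exact h
  have := hmain K h2
  linarith

end Pool.Agent.Results.MP_b90d6a_co.StarPath
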